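import Pool.Agent.Work.MP_9ec65e_al.StMain
import Pool.Agent.Work.MP_9ec65e_al.Exist

open scoped NNReal ENNReal
open Pool.Agent.Work.MP_9ec65e_al

theorem Pool.Agent.Results.MP_9ec65e_al.NotInjective.result :
    ∃ (p : ℝ≥0) (_ : Fact (1 ≤ (p : ℝ≥0∞))), p ≠ 2 ∧
      ∃ (X : Type) (_ : MetricSpace X) (_ : ProperSpace X),
        Nonempty (AntiCech X) ∧ ∀ D : AntiCech X, ¬ Function.Injective (St.mu D p) :=
  ⟨4, fact_four, by norm_num, Pt, inferInstance, inferInstance, nonempty_antiCech,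
    St.mu_not_injective⟩
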